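import Pool.Agent.helper69.LensCore

/-!
# The Schwarz genus of the circle bundles `π^m_k` over lens spaces

All definitions follow the problem file.
-/

set_option autoImplicit false

namespace Pool.Agent.Results.MP_fba7f7_gt.SchwarzGenus

open Topology

/-- The unit sphere `S^{2m-1}` of `ℂ^m`. -/
abbrev Sph (m : ℕ) := Metric.sphere (0 : EuclideanSpace ℂ (Fin m)) 1

/-- The root of unity `e^{2πi/r}`, as an element of the circle group. -/
noncomputable def rt (r : ℕ) : Circle := Circle.exp (2 * Real.pi / r)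

/-- Multiplication of every coordinate of a point of the sphere by a unit complex number. -/
noncomputable def rot {m : ℕ} (z : Circle) (x : Sph m) : Sph m :=
  ⟨(z : ℂ) • (x : EuclideanSpace ℂ (Fin m)), by
    have h := x.2
    rw [mem_sphere_zero_iff_norm] at h ⊢
    rw [norm_smul, Circle.norm_coe, one_mul, h]⟩

theorem rot_rot {m : ℕ} (z w : Circle) (x : Sph m) : rot z (rot w x) = rot (z * w) x := by
  apply Subtype.ext
  simp [rot, smul_smul]

theorem rot_one {m : ℕ} (x : Sph m) : rot 1 x = x := by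
  apply Subtype.ext
  simp [rot]

/-- The orbit relation of the action of `ℤ_r` on `S^{2m-1}`, a generator multiplying every coordinate
by `e^{2πi/r}`. -/
def lensSetoid (m r : ℕ) : Setoid (Sph m) where
  r x y := ∃ j : ℤ, y = rot (rt r ^ j) x
  iseqv :=
    { refl := fun x => ⟨0, by rw [zpow_zero, rot_one]⟩
      symm := by
        rintro x y ⟨j, rfl⟩
        exact ⟨-j, by rw [rot_rot, ← zpow_add, neg_add_cancel, zpow_zero, rot_one]⟩
      trans := by
        rintro x y z ⟨j, rfl⟩ ⟨i, rfl⟩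
        exact ⟨i + j, by rw [rot_rot, ← zpow_add]⟩ }

/-- The lens space `L^m(r) = S^{2m-1}/ℤ_r`, with the quotient topology. -/
def Lens (m r : ℕ) : Type := Quotient (lensSetoid m r)

instance (m r : ℕ) : TopologicalSpace (Lens m r) :=
  inferInstanceAs (TopologicalSpace (Quotient (lensSetoid m r)))

/-- The projection `S^{2m-1} → L^m(r)`. -/
def Lens.mk {m : ℕ} (r : ℕ) (x : Sph m) : Lens m r := Quotient.mk (lensSetoid m r) x

/-- The map of `L^m(r)` induced by multiplication by the unit complex number `z`. -/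
noncomputable def Lens.rot {m r : ℕ} (z : Circle) : Lens m r → Lens m r :=
  Quotient.map (SchwarzGenus.rot z) (by
    rintro x y ⟨j, rfl⟩
    exact ⟨j, by rw [rot_rot, rot_rot, mul_comm]⟩)

/-- The orbit relation of the diagonal action on `L^m(p) × S^1` of the cyclic group
`ℤ_{p^{k+1}}/ℤ_p` of order `p^k`: the class of the generator of `ℤ_{p^{k+1}}` acts on `L^m(p)` by
multiplication by `e^{2πi/p^{k+1}}` and on the circle by the rotation through `e^{2πi/p^k}`. -/
def bundleSetoid (m p k : ℕ) : Setoid (Lens m p × Circle) where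
  r a b := ∃ j : ℤ, b = (Lens.rot (rt (p ^ (k + 1)) ^ j) a.1, rt (p ^ k) ^ j * a.2)
  iseqv :=
    { refl := by
        rintro ⟨A, s⟩
        refine ⟨0, ?_⟩
        induction A using Quotient.inductionOn with
        | h x => simp [Lens.rot, rot_one]
      symm := by
        rintro ⟨A, s⟩ _ ⟨j, rfl⟩
        refine ⟨-j, ?_⟩
        induction A using Quotient.inductionOn with
        | h x => simp [Lens.rot, rot_rot, rot_one]
      trans := by
        rintro ⟨A, s⟩ _ _ ⟨j, rfl⟩ ⟨i, rfl⟩
        refine ⟨i + j, ?_⟩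
        induction A using Quotient.inductionOn with
        | h x => simp [Lens.rot, rot_rot, zpow_add, mul_assoc] }

/-- The total space `W^m_k`: the quotient of `L^m(p) × S^1` by the diagonal action. -/
def W (m p k : ℕ) : Type := Quotient (bundleSetoid m p k)

instance (m p k : ℕ) : TopologicalSpace (W m p k) :=
  inferInstanceAs (TopologicalSpace (Quotient (bundleSetoid m p k)))

theorem rt_pow (p k : ℕ) : rt (p ^ (k + 1)) ^ (p ^ k) = rt p := by
  unfold rt
  rw [← Circle.exp_natCast_mul]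
  congr 1
  rcases Nat.eq_zero_or_pos p with rfl | hp
  · simp
  · have : (p : ℝ) ≠ 0 := by positivity
    push_cast
    field_simp
    ring

theorem rt_pow' (p k : ℕ) (hp : 0 < p) : rt (p ^ (k + 1)) ^ p = rt (p ^ k) := by
  unfold rt
  rw [← Circle.exp_natCast_mul]
  congr 1
  have : (p : ℝ) ≠ 0 := by positivity
  push_cast
  field_simp
  ring

/-- The map `L^m(p) → L^m(p^{k+1})` induced by the identity of the sphere. -/
def Lens.quot (m p k : ℕ) : Lens m p → Lens m (p ^ (k + 1)) :=
  Quotient.map id (by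
    rintro x y ⟨j, rfl⟩
    refine ⟨((p ^ k : ℕ) : ℤ) * j, ?_⟩
    rw [zpow_mul, zpow_natCast, rt_pow]
    rfl)

/-- The bundle projection `π^m_k : W^m_k → L^m(p^{k+1})`, the projection onto the first factor. -/
def proj (m p k : ℕ) : W m p k → Lens m (p ^ (k + 1)) :=
  Quotient.lift (fun a => Lens.quot m p k a.1) (by
    rintro ⟨A, s⟩ _ ⟨j, rfl⟩
    induction A using Quotient.inductionOn with
    | h x => exact Quotient.sound ⟨j, rfl⟩)

/-- `f` admits a continuous section over `A`, that is, the restriction `f⁻¹(A) → A` does. -/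
def HasSectionOver {E B : Type} [TopologicalSpace E] [TopologicalSpace B] (f : E → B)
    (A : Set B) : Prop :=
  ∃ s : A → E, Continuous s ∧ ∀ a : A, f (s a) = a

/-- `B` is the union of `n` open sets over each of which `f` admits a continuous section. -/
def CoveredBy {E B : Type} [TopologicalSpace E] [TopologicalSpace B] (f : E → B) (n : ℕ) : Prop :=
  ∃ A : Fin n → Set B, (∀ i, IsOpen (A i)) ∧ (⋃ i, A i) = Set.univ ∧ ∀ i, HasSectionOver f (A i)

/-- The Schwarz genus of `f`: the least `n ≥ 1` such that the base is the union of `n` open sets over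
each of which `f` admits a continuous section (and `⊤` if there is no such `n`). -/
noncomputable def schwarzGenus {E B : Type} [TopologicalSpace E] [TopologicalSpace B]
    (f : E → B) : ℕ∞ :=
  ⨅ (n : ℕ) (_ : 1 ≤ n ∧ CoveredBy f n), (n : ℕ∞)

/-! ### Auxiliary facts -/

section aux

variable {m p k : ℕ}

theorem coe_rt (r : ℕ) : (rt r : ℂ) = helper69.LensC.zeta r := by
  rw [helper69.LensC.zeta_eq]
  rfl

/-- The class of `(x, t)` in `W`. -/
def W.mk (p k : ℕ) (x : Sph m) (t : Circle) : W m p k :=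
  Quotient.mk (bundleSetoid m p k) (Lens.mk p x, t)

theorem W.mk_rot (x : Sph m) (t : Circle) (j : ℤ) :
    W.mk p k (rot (rt (p ^ (k + 1)) ^ j) x) (rt (p ^ k) ^ j * t) = W.mk p k x t := by
  symm
  exact Quotient.sound ⟨j, rfl⟩

theorem proj_mk (x : Sph m) (t : Circle) : proj m p k (W.mk p k x t) = Lens.mk _ x := rfl

theorem W.exists_rep (w : W m p k) (y : Sph m) (h : proj m p k w = Lens.mk _ y) :
    ∃ t : Circle, w = W.mk p k y t := by
  induction w using Quotient.inductionOn with
  | h a =>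
    obtain ⟨A, s⟩ := a
    induction A using Quotient.inductionOn with
    | h x =>
      obtain ⟨j, hj⟩ : ∃ j : ℤ, y = rot (rt (p ^ (k + 1)) ^ j) x := Quotient.exact h
      refine ⟨rt (p ^ k) ^ j * s, ?_⟩
      rw [hj, W.mk_rot]
      rfl

theorem rt_zpow_pow_pow (p : ℕ) (hp : 0 < p) (j : ℤ) : (rt p ^ j) ^ p = 1 := by
  have h : rt p ^ p = 1 := by
    unfold rt
    rw [← Circle.exp_natCast_mul]
    have : (p : ℝ) ≠ 0 := by positivity
    rw [mul_div_cancel₀ _ this]
    simp
  rw [← zpow_natCast, ← zpow_mul, mul_comm, zpow_mul, zpow_natCast, h, one_zpow]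

/-- The coordinatewise `p`-th power on `L^m(p)`. -/
noncomputable def powL (m p : ℕ) (hp : 0 < p) : Lens m p → (Fin m → ℂ) :=
  Quotient.lift (fun x : Sph m => fun l => (x : EuclideanSpace ℂ (Fin m)) l ^ p) (by
    rintro x y ⟨j, rfl⟩
    funext l
    have h : ((rt p ^ j : Circle) : ℂ) ^ p = 1 := by
      rw [← Circle.coe_pow, rt_zpow_pow_pow p hp j, Circle.coe_one]
    simp only [rot, PiLp.smul_apply, smul_eq_mul, mul_pow, h, one_mul])

theorem powL_continuous (m p : ℕ) (hp : 0 < p) : Continuous (powL m p hp) := by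
  apply Continuous.quotient_lift
  fun_prop

/-- The equivariant map `W → ℂ^m`, `((x), t) ↦ (x_l^p * conj t)`. -/
noncomputable def Phi (m p k : ℕ) (hp : 0 < p) : W m p k → (Fin m → ℂ) :=
  Quotient.lift (fun a => fun l => powL m p hp a.1 l * ((a.2⁻¹ : Circle) : ℂ)) (by
    rintro ⟨A, s⟩ _ ⟨j, rfl⟩
    funext l
    induction A using Quotient.inductionOn with
    | h x =>
      have h1 : powL m p hp (Quotient.mk (lensSetoid m p) x) l =
          (x : EuclideanSpace ℂ (Fin m)) l ^ p := rfl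
      have h2 : powL m p hp (Lens.rot (rt (p ^ (k + 1)) ^ j) (Quotient.mk (lensSetoid m p) x)) l =
          (((rt (p ^ (k + 1)) ^ j : Circle) : ℂ) * (x : EuclideanSpace ℂ (Fin m)) l) ^ p := rfl
      have h3 : ((rt (p ^ (k + 1)) ^ j : Circle) : ℂ) ^ p = ((rt (p ^ k) ^ j : Circle) : ℂ) := by
        rw [← Circle.coe_pow, ← rt_pow' p k hp, ← zpow_natCast, ← zpow_natCast, ← zpow_mul,
          ← zpow_mul, mul_comm]
      simp only [h1, h2]
      rw [mul_pow, h3, mul_inv, Circle.coe_mul, Circle.coe_inv, Circle.coe_inv]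
      have h4 : ((rt (p ^ k) ^ j : Circle) : ℂ) ≠ 0 := Circle.coe_ne_zero _
      field_simp)

theorem Phi_mk (hp : 0 < p) (x : Sph m) (t : Circle) (l : Fin m) :
    Phi m p k hp (W.mk p k x t) l =
      (x : EuclideanSpace ℂ (Fin m)) l ^ p * ((t⁻¹ : Circle) : ℂ) := rfl

theorem Phi_continuous (m p k : ℕ) (hp : 0 < p) : Continuous (Phi m p k hp) := by
  apply Continuous.quotient_lift
  apply continuous_pi
  intro l
  have h1 : Continuous fun a : Lens m p × Circle => powL m p hp a.1 l :=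
    (continuous_apply l).comp ((powL_continuous m p hp).comp continuous_fst)
  have h0 : Continuous (fun x : Circle => (x : ℂ)) := by fun_prop
  have h2 : Continuous fun a : Lens m p × Circle => ((a.2⁻¹ : Circle) : ℂ) :=
    h0.comp (continuous_snd.inv)
  exact h1.mul h2

/-- The denominator. -/
noncomputable def den (m p : ℕ) (y : Sph m) : ℂ :=
  ∑ l, (y : EuclideanSpace ℂ (Fin m)) l ^ p *
    (starRingEnd ℂ) ((y : EuclideanSpace ℂ (Fin m)) l ^ p)

theorem den_ne_zero (m p : ℕ) (y : Sph m) : den m p y ≠ 0 := by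
  have hy : (y : EuclideanSpace ℂ (Fin m)) ≠ 0 := by
    intro h
    have := y.2
    rw [mem_sphere_zero_iff_norm, h, norm_zero] at this
    exact zero_ne_one this
  obtain ⟨l, hl⟩ : ∃ l, (y : EuclideanSpace ℂ (Fin m)) l ≠ 0 := by
    by_contra h
    push Not at h
    apply hy
    ext l
    simpa using h l
  have h1 : den m p y =
      ((∑ l, Complex.normSq ((y : EuclideanSpace ℂ (Fin m)) l ^ p) : ℝ) : ℂ) := by
    unfold den
    rw [Complex.ofReal_sum]
    apply Finset.sum_congr rfl
    intro l _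
    rw [Complex.mul_conj]
  rw [h1]
  have h2 : 0 < ∑ l, Complex.normSq ((y : EuclideanSpace ℂ (Fin m)) l ^ p) := by
    apply Finset.sum_pos'
    · intro l _
      exact Complex.normSq_nonneg _
    · exact ⟨l, Finset.mem_univ _, Complex.normSq_pos.mpr (pow_ne_zero _ hl)⟩
  exact_mod_cast h2.ne'

/-- The phase of a point of `W` lying over the class of `y`. -/
noncomputable def sfun (hp : 0 < p) (w : W m p k) (y : Sph m) : ℂ :=
  (starRingEnd ℂ) ((∑ l, Phi m p k hp w l *
    (starRingEnd ℂ) ((y : EuclideanSpace ℂ (Fin m)) l ^ p)) / den m p y)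

theorem sfun_mk (hp : 0 < p) (y : Sph m) (t : Circle) :
    sfun hp (W.mk p k y t) y = (t : ℂ) := by
  unfold sfun
  have h1 : (∑ l, Phi m p k hp (W.mk p k y t) l *
      (starRingEnd ℂ) ((y : EuclideanSpace ℂ (Fin m)) l ^ p)) = ((t⁻¹ : Circle) : ℂ) * den m p y := by
    unfold den
    rw [Finset.mul_sum]
    apply Finset.sum_congr rfl
    intro l _
    rw [Phi_mk]
    ring
  rw [h1, mul_div_assoc, div_self (den_ne_zero m p y), mul_one, ← Circle.coe_inv_eq_conj, inv_inv]

theorem sfun_continuous (hp : 0 < p) :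
    Continuous fun a : W m p k × Sph m => sfun hp a.1 a.2 := by
  unfold sfun
  apply Complex.continuous_conj.comp
  apply Continuous.div
  · apply continuous_finsetSum
    intro l _
    apply Continuous.mul
    · exact (continuous_apply l).comp ((Phi_continuous m p k hp).comp continuous_fst)
    · apply Complex.continuous_conj.comp
      fun_prop
  · unfold den
    apply continuous_finsetSum
    intro l _
    apply Continuous.mul
    · fun_prop
    · apply Complex.continuous_conj.comp
      fun_prop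
  · intro a
    exact den_ne_zero m p a.2

open helper69.LensC in
/-- normalisation -/
noncomputable def ns (x : XX m) : Sph m :=
  ⟨((‖x.1‖⁻¹ : ℝ) : ℂ) • x.1, by
    rw [mem_sphere_zero_iff_norm, norm_smul, Complex.norm_real, norm_inv, norm_norm]
    exact inv_mul_cancel₀ (norm_ne_zero_iff.mpr x.2)⟩

open helper69.LensC in
theorem ns_continuous : Continuous (ns (m := m)) := by
  apply Continuous.subtype_mk
  have h1 : Continuous fun x : XX m => ((‖x.1‖⁻¹ : ℝ) : ℂ) := by
    apply Complex.continuous_ofReal.comp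
    apply Continuous.inv₀
    · fun_prop
    · intro x
      exact norm_ne_zero_iff.mpr x.2
  exact h1.smul continuous_subtype_val

open helper69.LensC in
theorem ns_gg (r : ℕ) (x : XX m) : ns (gg (zeta r) (zeta_ne_zero r) x) = rot (rt r) (ns x) := by
  apply Subtype.ext
  simp only [ns, rot, gg_val, norm_smul, norm_zeta, one_mul, coe_rt]
  rw [smul_comm]

theorem lens_mk_rot (r : ℕ) (x : Sph m) : Lens.mk r (rot (rt r) x) = Lens.mk r x := by
  symm
  exact Quotient.sound ⟨1, by rw [zpow_one]⟩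

open helper69.LensC in
/-- No cover by `n ≤ k`, `n < m` sets. -/
theorem lower (hp : p.Prime) (hk : 1 ≤ k) (n : ℕ) (hnm : n < m) (hnk : n ≤ k)
    (hcov : CoveredBy (proj m p k) n) : False := by
  obtain ⟨A, hA, hU, hsec⟩ := hcov
  choose sec hc hs using hsec
  have hp0 : 0 < p := hp.pos
  have hq : 4 ≤ p ^ (k + 1) := by
    have h1 : 2 ≤ p := hp.two_le
    calc 4 = 2 ^ 2 := by norm_num
      _ ≤ p ^ 2 := Nat.pow_le_pow_left h1 2
      _ ≤ p ^ (k + 1) := Nat.pow_le_pow_right hp0 (by omega)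
  let pr : XX m → Lens m (p ^ (k + 1)) := fun x => Lens.mk (p ^ (k + 1)) (ns x)
  have hprc : Continuous pr := continuous_quotient_mk'.comp ns_continuous
  let Uf : Fin n → Set (XX m) := fun i => {x | pr x ∈ A i}
  let sf : Fin n → XX m → ℂ := fun i x =>
    open Classical in if h : pr x ∈ A i then sfun hp0 (sec i ⟨pr x, h⟩) (ns x) else 1
  have hsf : ∀ i x (h : pr x ∈ A i), sf i x = sfun hp0 (sec i ⟨pr x, h⟩) (ns x) := by
    intro i x h
    simp only [sf]
    rw [dif_pos h]
  -- the phase at a point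
  have hrep : ∀ i x (h : pr x ∈ A i), ∃ t : Circle,
      sec i ⟨pr x, h⟩ = W.mk p k (ns x) t ∧ sf i x = t := by
    intro i x h
    obtain ⟨t, ht⟩ := W.exists_rep (sec i ⟨pr x, h⟩) (ns x) (hs i ⟨pr x, h⟩)
    exact ⟨t, ht, by rw [hsf i x h, ht, sfun_mk]⟩
  have hprg : ∀ x, pr (gg (zeta (p ^ (k + 1))) (zeta_ne_zero (p ^ (k + 1))) x) = pr x := by
    intro x
    simp only [pr]
    rw [ns_gg, lens_mk_rot]
  have hunit : ∀ i x, pr x ∈ A i → ‖sf i x‖ = 1 := by
    intro i x h
    obtain ⟨t, _, ht⟩ := hrep i x h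
    rw [ht, Circle.norm_coe]
  have hequi : ∀ i x, pr x ∈ A i → sf i (gg (zeta (p ^ (k + 1))) (zeta_ne_zero (p ^ (k + 1))) x) =
      zeta (p ^ (k + 1)) ^ p * sf i x := by
    intro i x hx
    obtain ⟨t, ht1, ht2⟩ := hrep i x hx
    have hx' : pr (gg (zeta (p ^ (k + 1))) (zeta_ne_zero (p ^ (k + 1))) x) ∈ A i := by
      rw [hprg]; exact hx
    have h1 : sec i ⟨pr (gg (zeta (p ^ (k + 1))) (zeta_ne_zero (p ^ (k + 1))) x), hx'⟩ =
        sec i ⟨pr x, hx⟩ := congrArg (sec i) (Subtype.ext (hprg x))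
    have h2 := W.mk_rot (p := p) (k := k) (ns x) t 1
    rw [zpow_one, zpow_one] at h2
    rw [hsf _ _ hx', h1, ht1, ← h2, ns_gg, sfun_mk, ht2, Circle.coe_mul, ← rt_pow' p k hp0,
      Circle.coe_pow, coe_rt]
  have hcont : ∀ i, ContinuousOn (sf i) (Uf i) := by
    intro i
    rw [continuousOn_iff_continuous_domRestrict]
    have h1 : (Uf i).domRestrict (sf i) =
        fun x : Uf i => sfun hp0 (sec i ⟨pr x.1, x.2⟩) (ns x.1) := by
      funext x
      exact hsf i x.1 x.2
    rw [h1]
    have h2 : Continuous fun x : Uf i =>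
        ((sec i ⟨pr x.1, x.2⟩, ns x.1) : W m p k × Sph m) := by
      apply Continuous.prodMk
      · apply (hc i).comp
        exact Continuous.subtype_mk (hprc.comp continuous_subtype_val) _
      · exact ns_continuous.comp continuous_subtype_val
    have h3 := (sfun_continuous (m := m) (p := p) (k := k) hp0).comp h2
    exact h3
  have hopen : ∀ i, IsOpen (Uf i) := fun i => (hA i).preimage hprc
  have hinv : ∀ i x, gg (zeta (p ^ (k + 1))) (zeta_ne_zero (p ^ (k + 1))) x ∈ Uf i ↔ x ∈ Uf i := by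
    intro i x
    simp only [Uf, Set.mem_ofPred_eq, hprg]
  have hcover : ∀ x, ∃ i, x ∈ Uf i := by
    intro x
    have : pr x ∈ ⋃ i, A i := by rw [hU]; trivial
    rw [Set.mem_iUnion] at this
    exact this
  have hunit' : ∀ i, ∀ x ∈ Uf i, ‖sf i x‖ = 1 := hunit
  have hequi' : ∀ i, ∀ x ∈ Uf i, sf i (gg (zeta (p ^ (k + 1))) (zeta_ne_zero (p ^ (k + 1))) x) =
      zeta (p ^ (k + 1)) ^ p * sf i x := hequi
  clear_value Uf sf
  clear hunit hequi hrep hsf hprc hprg hs hc
  let U : ℕ → Set (XX m) := fun j => if h : j < n then Uf ⟨j, h⟩ else ∅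
  let s : ℕ → XX m → ℂ := fun j => if h : j < n then sf ⟨j, h⟩ else fun _ => 1
  have hUj : ∀ j (h : j < n), U j = Uf ⟨j, h⟩ := fun j h => dif_pos h
  have hsj : ∀ j (h : j < n), s j = sf ⟨j, h⟩ := fun j h => dif_pos h
  clear_value U s
  have hmain := core (m := m) n (p ^ (k + 1)) p hq hnm U s ?_ ?_ ?_ ?_ ?_ ?_
  · -- `p ^ (k + 1) ∣ p ^ n` with `n ≤ k`
    rw [Nat.pow_dvd_pow_iff_le_right hp.one_lt] at hmain
    omega
  · intro j hj
    rw [hUj j hj]
    exact hopen _
  · intro j hj x
    rw [hUj j hj]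
    exact hinv _ x
  · intro x
    obtain ⟨⟨j, hj⟩, hx⟩ := hcover x
    refine ⟨j, hj, ?_⟩
    rw [hUj j hj]
    exact hx
  · intro j hj
    rw [hUj j hj, hsj j hj]
    exact hcont _
  · intro j hj x hx
    rw [hUj j hj] at hx
    rw [hsj j hj]
    exact hunit' _ x hx
  · intro j hj x hx
    rw [hUj j hj] at hx
    rw [hsj j hj]
    exact hequi' _ x hx

/-- The unit complex number of a nonzero complex number. -/
noncomputable def un (z : ℂ) (hz : z ≠ 0) : Circle :=
  ⟨z / ‖z‖, mem_sphere_zero_iff_norm.2 <| by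
    rw [norm_div, Complex.norm_real, norm_norm]
    exact div_self (norm_ne_zero_iff.mpr hz)⟩

theorem un_mul (c : Circle) (z : ℂ) (hz : z ≠ 0) (hz' : (c : ℂ) * z ≠ 0) :
    un ((c : ℂ) * z) hz' = c * un z hz := by
  apply Circle.ext
  rw [Circle.coe_mul]
  change (c : ℂ) * z / ((‖(c : ℂ) * z‖ : ℝ) : ℂ) = (c : ℂ) * (z / ((‖z‖ : ℝ) : ℂ))
  rw [norm_mul, Circle.norm_coe, one_mul, mul_div_assoc]

/-- `m` sets suffice. -/
theorem upper (m p k : ℕ) (hp : 0 < p) : CoveredBy (proj m p k) m := by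
  let A : Fin m → Set (Lens m (p ^ (k + 1))) := fun i =>
    {b | ∃ y : Sph m, Lens.mk (p ^ (k + 1)) y = b ∧ (y : EuclideanSpace ℂ (Fin m)) i ≠ 0}
  have hpre : ∀ i (y : Sph m), Lens.mk (p ^ (k + 1)) y ∈ A i → (y : EuclideanSpace ℂ (Fin m)) i ≠ 0 := by
    rintro i y ⟨x, hx, hxi⟩
    obtain ⟨j, hj⟩ : ∃ j : ℤ, y = rot (rt (p ^ (k + 1)) ^ j) x := Quotient.exact hx
    rw [hj]
    exact mul_ne_zero (Circle.coe_ne_zero _) hxi
  have hquot : IsQuotientMap (Lens.mk (m := m) (p ^ (k + 1))) := isQuotientMap_quotient_mk'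
  have hopen : ∀ i, IsOpen (A i) := by
    intro i
    rw [← hquot.isOpen_preimage]
    have : Lens.mk (m := m) (p ^ (k + 1)) ⁻¹' (A i) = {y : Sph m | (y : EuclideanSpace ℂ (Fin m)) i ≠ 0} := by
      ext y
      exact ⟨hpre i y, fun h => ⟨y, rfl, h⟩⟩
    rw [this]
    apply isOpen_ne_fun
    · fun_prop
    · exact continuous_const
  refine ⟨A, hopen, ?_, ?_⟩
  · rw [Set.eq_univ_iff_forall]
    intro b
    obtain ⟨y, rfl⟩ := hquot.surjective b
    have hy : (y : EuclideanSpace ℂ (Fin m)) ≠ 0 := by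
      intro h
      have := y.2
      rw [mem_sphere_zero_iff_norm, h, norm_zero] at this
      exact zero_ne_one this
    obtain ⟨l, hl⟩ : ∃ l, (y : EuclideanSpace ℂ (Fin m)) l ≠ 0 := by
      by_contra h
      push Not at h
      apply hy
      ext l
      simpa using h l
    rw [Set.mem_iUnion]
    exact ⟨l, y, rfl, hl⟩
  · intro i
    have hrep : ∀ b : A i, ∃ y : Sph m, Lens.mk (p ^ (k + 1)) y = b ∧ (y : EuclideanSpace ℂ (Fin m)) i ≠ 0 :=
      fun b => b.2
    choose rep h1 h2 using hrep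
    have hq2 := hquot.restrictPreimage_isOpen (hopen i)
    let G : Lens.mk (m := m) (p ^ (k + 1)) ⁻¹' (A i) → W m p k := fun y =>
      W.mk p k y.1 (un ((y.1 : EuclideanSpace ℂ (Fin m)) i) (hpre i y.1 y.2) ^ p)
    have hG : Continuous G := by
      apply continuous_quotient_mk'.comp
      apply Continuous.prodMk
      · exact continuous_quotient_mk'.comp continuous_subtype_val
      · apply Continuous.pow
        apply Continuous.subtype_mk
        apply Continuous.div
        · fun_prop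
        · fun_prop
        · intro y
          have := hpre i y.1 y.2
          exact_mod_cast norm_ne_zero_iff.mpr this
    have hwd : ∀ (x y : Sph m) (hx : (x : EuclideanSpace ℂ (Fin m)) i ≠ 0)
        (hy : (y : EuclideanSpace ℂ (Fin m)) i ≠ 0), Lens.mk (p ^ (k + 1)) x = Lens.mk (p ^ (k + 1)) y →
        W.mk p k x (un ((x : EuclideanSpace ℂ (Fin m)) i) hx ^ p) =
        W.mk p k y (un ((y : EuclideanSpace ℂ (Fin m)) i) hy ^ p) := by
      intro x y hx hy hxy
      obtain ⟨j, hj⟩ : ∃ j : ℤ, y = rot (rt (p ^ (k + 1)) ^ j) x := Quotient.exact hxy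
      subst hj
      have h3 : un ((rot (rt (p ^ (k + 1)) ^ j) x : EuclideanSpace ℂ (Fin m)) i) hy =
          rt (p ^ (k + 1)) ^ j * un ((x : EuclideanSpace ℂ (Fin m)) i) hx :=
        un_mul (rt (p ^ (k + 1)) ^ j) _ hx hy
      have h4 : (rt (p ^ (k + 1)) ^ j) ^ p = rt (p ^ k) ^ j := by
        rw [← rt_pow' p k hp, ← zpow_natCast, ← zpow_natCast, ← zpow_mul, ← zpow_mul, mul_comm]
      rw [h3, mul_pow, h4, W.mk_rot]
    refine ⟨fun b => W.mk p k (rep b) (un ((rep b : EuclideanSpace ℂ (Fin m)) i) (h2 b) ^ p), ?_, ?_⟩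
    · rw [hq2.continuous_iff]
      have : (fun b => W.mk p k (rep b) (un ((rep b : EuclideanSpace ℂ (Fin m)) i) (h2 b) ^ p)) ∘
          (A i).restrictPreimage (Lens.mk (p ^ (k + 1))) = G := by
        funext y
        exact hwd _ _ _ _ (h1 _)
      rw [this]
      exact hG
    · intro b
      rw [proj_mk]
      exact h1 b

end aux

/-- **The Schwarz genus of `π^m_k`.** For every prime `p`, `m ≥ 2` and `k ≥ 1` the Schwarz genus of
`π^m_k` is at least `min (k + 1) m` and at most `m`. Consequently, for every prime `p` and every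
`m > 2` with `p ∣ m - 2` it exceeds `N + 2 = (m - 2) / p + 2` for all `k ≥ N + 2`, so that the
answer to Q1 is negative for every prime `p`. -/
theorem result :
    (∀ p m k : ℕ, p.Prime → 2 ≤ m → 1 ≤ k →
      ((min (k + 1) m : ℕ) : ℕ∞) ≤ schwarzGenus (proj m p k) ∧
      schwarzGenus (proj m p k) ≤ (m : ℕ∞)) ∧
    (∀ p m k : ℕ, p.Prime → 2 < m → p ∣ m - 2 → (m - 2) / p + 2 ≤ k →
      (((m - 2) / p + 2 : ℕ) : ℕ∞) < schwarzGenus (proj m p k)) ∧
    ¬ (∀ p m k : ℕ, p.Prime → 2 ≤ m → p ∣ m - 2 → 1 ≤ k →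
      schwarzGenus (proj m p k) = (((m - 2) / p + 2 : ℕ) : ℕ∞)) := by
  have h1 : ∀ p m k : ℕ, p.Prime → 2 ≤ m → 1 ≤ k →
      ((min (k + 1) m : ℕ) : ℕ∞) ≤ schwarzGenus (proj m p k) ∧
      schwarzGenus (proj m p k) ≤ (m : ℕ∞) := by
    intro p m k hp hm hk
    constructor
    · unfold schwarzGenus
      refine le_iInf₂ ?_
      rintro n ⟨-, hn⟩
      rw [Nat.cast_le]
      by_contra h
      push Not at h
      rw [lt_min_iff] at h
      exact lower hp hk n h.2 (by omega) hn
    · unfold schwarzGenus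
      exact iInf₂_le m ⟨by omega, upper m p k hp.pos⟩
  have h2 : ∀ p m k : ℕ, p.Prime → 2 < m → p ∣ m - 2 → (m - 2) / p + 2 ≤ k →
      (((m - 2) / p + 2 : ℕ) : ℕ∞) < schwarzGenus (proj m p k) := by
    intro p m k hp hm hd hk
    have h3 : (m - 2) / p < m - 2 := Nat.div_lt_self (by omega) hp.one_lt
    generalize (m - 2) / p = N at hk h3 ⊢
    refine lt_of_lt_of_le ?_ (h1 p m k hp (by omega) (by omega)).1
    rw [Nat.cast_lt, lt_min_iff]
    omega
  refine ⟨h1, h2, ?_⟩
  intro h
  have h3 := h 2 4 3 Nat.prime_two (by norm_num) (by norm_num) (by norm_num)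
  have h4 := h2 2 4 3 Nat.prime_two (by norm_num) (by norm_num) (by norm_num)
  rw [h3] at h4
  exact lt_irrefl _ h4

end Pool.Agent.Results.MP_fba7f7_gt.SchwarzGenus
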